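import Pool.Agent.Y300.LC.Stm

/-! Job LC-REL for helper300: the algebraic relations between the coefficients. -/

set_option autoImplicit false

open PowerSeries

namespace Pool.Agent.Y420.LC

open Pool.Agent.Y300.LC

section
variable {R : Type} [CommRing R]

theorem coeff_X_deriv (G : PowerSeries R) (m : ℕ) :
    coeff m (X * derivative R G) = (m : R) * coeff m G := by
  cases m with
  | zero => simp
  | succ m =>
    rw [coeff_succ_X_mul, coeff_derivative]
    push_cast
    ring

theorem deriv_pow (G : PowerSeries R) (k : ℕ) :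
    derivative R (G ^ (k + 1)) = ((k : PowerSeries R) + 1) * G ^ k * derivative R G := by
  rw [Derivation.leibniz_pow]
  simp only [Nat.add_sub_cancel, smul_eq_mul, nsmul_eq_mul]
  push_cast
  ring

theorem deriv_C_mul (a : R) (G : PowerSeries R) :
    derivative R (C a * G) = C a * derivative R G := by
  rw [Derivation.leibniz]
  simp

end

theorem rel_all : S_REL := by
  intro R _ N p q F hN hF
  obtain ⟨h0, h1, hX⟩ := hF
  obtain ⟨n, rfl⟩ : ∃ n, N = n + 1 := ⟨N - 1, by omega⟩
  set D : PowerSeries R := derivative R F with hD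
  set I : PowerSeries R := invOfUnit D 1 with hI
  have hD0 : constantCoeff D = 1 := by
    rw [← coeff_zero_eq_constantCoeff_apply, hD, coeff_derivative]
    simp [h1]
  have hDI : D * I = 1 := mul_invOfUnit D 1 (by simp [hD0])
  have hI0 : constantCoeff I = 1 := by simp [hI]
  have hser : ∀ j, ser F j = F ^ j * I := fun j => rfl
  have haa : ∀ j m, aa F j m = coeff (m + 1) (F ^ j * I) := fun j m => rfl
  have hbb : ∀ k m, bb F k m = coeff m (F ^ k) := fun j m => rfl
  obtain ⟨G, hG⟩ := X_dvd_iff.2 h0
  have hG0 : constantCoeff G = 1 := by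
    have h2 : coeff 1 F = coeff 0 G := by
      rw [hG, show (1 : ℕ) = 0 + 1 from rfl, coeff_succ_X_mul]
    rw [← coeff_zero_eq_constantCoeff_apply, ← h2, h1]
  -- derivative of the equation
  have hXD : X * derivative R D =
      (C p * (((n : PowerSeries R) + 1) * F ^ n) + C q * (((n : PowerSeries R) + 2) * F ^ (n + 1))) *
        D := by
    have h2 := congrArg (fun z => derivative R z) hX
    simp only [map_add, Derivation.leibniz (derivative R) X, deriv_C_mul, derivative_X,
      smul_eq_mul] at h2
    rw [deriv_pow, deriv_pow, ← hD] at h2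
    push_cast at h2
    linear_combination h2
  have hE : ∀ (g : PowerSeries R) (r : PowerSeries R), g * D = r →
      X * derivative R g = X * derivative R r * I -
        g * (C p * (((n : PowerSeries R) + 1) * F ^ n) +
          C q * (((n : PowerSeries R) + 2) * F ^ (n + 1))) := by
    intro g r hg
    have h2 := congrArg (fun z => derivative R z) hg
    simp only [Derivation.leibniz, smul_eq_mul] at h2
    linear_combination (X * I) * h2 - (g * I) * hXD +
      (-(X * derivative R g) - g * (C p * (((n : PowerSeries R) + 1) * F ^ n) +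
          C q * (((n : PowerSeries R) + 2) * F ^ (n + 1)))) * hDI
  have hcast : ∀ (a : ℕ) (P : PowerSeries R) (m : ℕ),
      coeff m ((a : PowerSeries R) * P) = (a : R) * coeff m P := by
    intro a P m
    rw [← nsmul_eq_mul, map_nsmul, nsmul_eq_mul]
  have hcoef : ∀ (j m : ℕ),
      coeff (m + 1) (F ^ j * I * (C p * (((n : PowerSeries R) + 1) * F ^ n) +
          C q * (((n : PowerSeries R) + 2) * F ^ (n + 1)))) =
        ((n : R) + 1) * p * aa F (j + n) m + ((n : R) + 2) * q * aa F (j + n + 1) m := by
    intro j m
    have h2 : F ^ j * I * (C p * (((n : PowerSeries R) + 1) * F ^ n) +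
          C q * (((n : PowerSeries R) + 2) * F ^ (n + 1))) =
        C p * (((n + 1 : ℕ) : PowerSeries R) * (F ^ (j + n) * I)) +
          C q * (((n + 2 : ℕ) : PowerSeries R) * (F ^ (j + n + 1) * I)) := by
      push_cast
      ring
    rw [h2, map_add, coeff_C_mul, coeff_C_mul, hcast, hcast, haa, haa]
    push_cast
    ring
  refine ⟨?_, ?_, ?_, ?_, ?_, ?_, ?_, ?_, ?_⟩
  · intro k m
    rcases k with _ | k
    · rw [hbb, pow_zero, coeff_one]
      by_cases hm : m = 0 <;> simp [hm]
    · have h2 : X * derivative R (F ^ (k + 1)) =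
          ((k + 1 : ℕ) : PowerSeries R) * (F ^ (k + 1) + C p * F ^ (k + 1 + (n + 1) - 1) +
            C q * F ^ (k + 1 + (n + 1))) := by
        rw [deriv_pow, ← hD, show k + 1 + (n + 1) - 1 = k + (n + 1) by omega]
        push_cast
        linear_combination (((k : PowerSeries R) + 1) * F ^ k) * hX
      have h3 := congrArg (coeff m) h2
      rw [coeff_X_deriv, hcast, map_add, map_add, coeff_C_mul, coeff_C_mul] at h3
      simp only [hbb]
      linear_combination h3
  · intro j m
    have h2 : F ^ (j + 1) * I + C p * (F ^ (j + (n + 1)) * I) +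
        C q * (F ^ (j + 1 + (n + 1)) * I) = X * F ^ j := by
      linear_combination (-(F ^ j * I)) * hX + (X * F ^ j) * hDI
    have h3 := congrArg (coeff (m + 1)) h2
    rw [map_add, map_add, coeff_C_mul, coeff_C_mul, coeff_succ_X_mul] at h3
    exact h3
  · intro j m
    have h2 := hE (F ^ (j + 1) * I) (F ^ (j + 1)) (by linear_combination F ^ (j + 1) * hDI)
    have h4 : X * derivative R (F ^ (j + 1)) * I = ((j + 1 : ℕ) : PowerSeries R) * (X * F ^ j) := by
      rw [deriv_pow, ← hD]
      push_cast
      linear_combination (((j : PowerSeries R) + 1) * (X * F ^ j)) * hDI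
    rw [h4] at h2
    have h3 := congrArg (coeff (m + 1)) h2
    rw [coeff_X_deriv, map_sub, hcoef, hcast, coeff_succ_X_mul] at h3
    rw [haa (j + 1), hbb, show j + (n + 1) = j + 1 + n by omega,
      show j + 1 + (n + 1) = j + 1 + n + 1 by omega]
    push_cast at h3 ⊢
    linear_combination h3
  · intro m
    have h2 := hE (F ^ 0 * I) 1 (by rw [pow_zero, one_mul, mul_comm, hDI])
    have h3 := congrArg (coeff (m + 1)) h2
    rw [coeff_X_deriv, map_sub, hcoef] at h3
    have h4 : derivative R (1 : PowerSeries R) = 0 := Derivation.map_one_eq_zero _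
    rw [h4] at h3
    simp only [mul_zero, zero_mul, map_zero, zero_add] at h3
    rw [haa 0, show n + 1 - 1 = n by omega]
    push_cast at h3 ⊢
    linear_combination h3
  · intro k m hm
    rw [hbb, hG, mul_pow, coeff_X_pow_mul', if_neg (by omega)]
  · intro k
    rw [hbb, hG, mul_pow, coeff_X_pow_mul', if_pos le_rfl, Nat.sub_self,
      coeff_zero_eq_constantCoeff_apply, map_pow, hG0, one_pow]
  · intro m
    rw [hbb, pow_zero, coeff_one]
  · intro j m hm
    rw [haa, hG, mul_pow, mul_assoc, coeff_X_pow_mul', if_neg (by omega)]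
  · intro j
    rw [haa]
    nth_rewrite 1 [hG]
    rw [mul_pow, mul_assoc, coeff_X_pow_mul', if_pos le_rfl, Nat.sub_self,
      coeff_zero_eq_constantCoeff_apply, map_mul, map_pow, hG0, one_pow, one_mul, hI0]

end Pool.Agent.Y420.LC
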