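import Pool.Agent.Y300.LC.Stm

/-! Job LC-SPAN for helper300: elements of the span of the limit family. -/

set_option autoImplicit false

open PowerSeries Finset

namespace Pool.Agent.Y420.LC

open Pool.Agent.Y300.LC

theorem rel_sol (hs : S_SOL) (hr : S_REL) (N : ℕ) (hN : 2 ≤ N) (p q : ℂ) :
    Rel N p q (sol N p q) := by
  apply hr ℂ N p q _ hN
  exact Classical.epsilon_spec (hs ℂ N p q hN).exists

/-- vanishing of the coefficients of the powers for `p = 0` -/
theorem van (hs : S_SOL) (hr : S_REL) (N : ℕ) (hN : 2 ≤ N) : ∀ (d k m : ℕ), m ≤ k + d →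
    B N 0 1 k m ≠ 0 → ∃ l : ℕ, m = k + l * N := by
  have R := rel_sol hs hr N hN 0 1
  intro d
  induction d using Nat.strong_induction_on with
  | _ d ih =>
    intro k m hm hne
    rcases lt_trichotomy m k with h | h | h
    · exact absurd (R.r5 k m h) hne
    · exact ⟨0, by omega⟩
    · have h1 := R.r1 k m
      have h2 : B N 0 1 (k + N) m ≠ 0 := by
        intro h3
        have h4 : bb (sol N (0 : ℂ) 1) (k + N) m = 0 := h3
        rw [h4] at h1
        have h5 : ((m : ℂ) - k) * bb (sol N (0 : ℂ) 1) k m = 0 := by rw [h1]; ring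
        rcases mul_eq_zero.1 h5 with h6 | h6
        · have h7 : (m : ℂ) = k := sub_eq_zero.1 h6
          have h8 : m = k := by exact_mod_cast h7
          omega
        · exact hne h6
      by_cases hd : N ≤ d
      · obtain ⟨l, hl⟩ := ih (d - N) (by omega) (k + N) m (by omega) h2
        exact ⟨l + 1, by rw [hl]; ring⟩
      · exact absurd (R.r5 (k + N) m (by omega)) h2

theorem van' (hs : S_SOL) (hr : S_REL) (N : ℕ) (hN : 2 ≤ N) (k m : ℕ)
    (h : ∀ l : ℕ, m ≠ k + l * N) : B N 0 1 k m = 0 := by
  by_contra hne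
  obtain ⟨l, hl⟩ := van hs hr N hN m k m (by omega) hne
  exact h l hl

/-- the recurrence for `p = 0` -/
theorem recA (hs : S_SOL) (hr : S_REL) (N : ℕ) (hN : 2 ≤ N) (j m : ℕ) :
    ((m : ℂ) - N) * A N 0 1 (j + 1) m = -((N : ℂ) - j) * B N 0 1 j m := by
  have R := rel_sol hs hr N hN 0 1
  have h2 := R.r2 j m
  have h3 := R.r3 j m
  show ((m : ℂ) - N) * aa (sol N 0 1) (j + 1) m = -((N : ℂ) - j) * bb (sol N 0 1) j m
  linear_combination h3 - ((N : ℂ) + 1) * h2

/-- the recurrence for `p = 1` -/
theorem recB (hs : S_SOL) (hr : S_REL) (N : ℕ) (hN : 2 ≤ N) (t : ℂ) (j m : ℕ) :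
    ((m : ℂ) - N + 1) * A N 1 t (j + 1) m =
      -((N : ℂ) - 1 - j) * B N 1 t j m - t * A N 1 t (j + 1 + N) m := by
  have R := rel_sol hs hr N hN 1 t
  have h2 := R.r2 j m
  have h3 := R.r3 j m
  show ((m : ℂ) - N + 1) * aa (sol N 1 t) (j + 1) m =
      -((N : ℂ) - 1 - j) * bb (sol N 1 t) j m - t * aa (sol N 1 t) (j + 1 + N) m
  linear_combination h3 - (N : ℂ) * h2

theorem aNN (hs : S_SOL) (hr : S_REL) (N : ℕ) (hN : 2 ≤ N) : A N 0 1 N N = 0 := by
  have R := rel_sol hs hr N hN 0 1
  obtain ⟨n, rfl⟩ : ∃ n, N = n + 1 := ⟨N - 1, by omega⟩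
  have h2 := R.r2 n (n + 1)
  have h3 : aa (sol (n + 1) (0 : ℂ) 1) (n + 1 + (n + 1)) (n + 1) = 0 := by
    have := R.r8 (n + 1 + n) (n + 1) (by omega)
    exact this
  have h4 : bb (sol (n + 1) (0 : ℂ) 1) n (n + 1) = 0 := by
    apply van' hs hr (n + 1) hN n (n + 1)
    intro l hl
    rcases l with _ | l
    · omega
    · have : l * (n + 1) + (n + 1) = (l + 1) * (n + 1) := by ring
      omega
  show aa (sol (n + 1) (0 : ℂ) 1) (n + 1) (n + 1) = 0
  rw [h3, h4] at h2
  linear_combination h2

theorem mem_uf (N : ℕ) (t : ℂ) (j k : ℕ) (h : j + k ≤ N + 1) :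
    (fun m => uf N t j k m) ∈ Submodule.span ℂ (Set.range (fam1 N t)) := by
  apply Submodule.subset_span
  refine ⟨Sum.inl ⟨(j, k), ?_⟩, rfl⟩
  simp only [J, mem_filter, mem_product, mem_range]
  omega

theorem mem_ug (N : ℕ) (t : ℂ) (j k : ℕ) (h : j + k ≤ N + 1) :
    (fun m => ug N t j k m) ∈ Submodule.span ℂ (Set.range (fam1 N t)) := by
  apply Submodule.subset_span
  refine ⟨Sum.inr ⟨(j, k), ?_⟩, rfl⟩
  simp only [J, mem_filter, mem_product, mem_range]
  omega

theorem chain_all (hs : S_SOL) (hr : S_REL) : S_CHAIN := by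
  intro N t hN6 ht
  have hN : 2 ≤ N := by omega
  set S := Submodule.span ℂ (Set.range (fam1 N t)) with hS
  have R := rel_sol hs hr N hN 0 1
  have R' := rel_sol hs hr N hN 1 t
  set e : ℕ → ℂ := fun m => A N 0 1 N m / (((m : ℂ) - N) * ((m : ℂ) + 1)) with he
  have hm1 : ∀ m : ℕ, (m : ℂ) + 1 ≠ 0 := fun m => by exact_mod_cast Nat.succ_ne_zero m
  have hN1 : (N : ℂ) + 1 ≠ 0 := hm1 N
  have heq : ∀ m, A N 0 1 N m = ((m : ℂ) - N) * ((m : ℂ) + 1) * e m := by
    intro m
    by_cases hm : m = N
    · subst hm
      rw [aNN hs hr m hN]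
      ring
    · have h1 : (m : ℂ) - N ≠ 0 := by
        rw [sub_ne_zero]
        exact_mod_cast hm
      have h2 := hm1 m
      simp only [he]
      field_simp
  have heN : e N = 0 := by simp [he]
  have hdiv : ∀ (m : ℕ) (x : ℂ), A N 0 1 N m * x / ((m : ℂ) - N) = ((m : ℂ) + 1) * e m * x := by
    intro m x
    by_cases hm : m = N
    · subst hm
      rw [heN]
      simp
    · have h1 : (m : ℂ) - N ≠ 0 := by
        rw [sub_ne_zero]
        exact_mod_cast hm
      rw [heq m]
      field_simp
  -- the elements of the family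
  have P : ∀ k, k ≤ N + 1 → (fun m : ℕ => ((m : ℂ) - N) * e m * B N 1 t k m) ∈ S := by
    intro k hk
    have h1 := mem_uf N t 0 k (by omega)
    have h2 : (fun m : ℕ => ((m : ℂ) - N) * e m * B N 1 t k m) =
        (-(1 / ((N : ℂ) + 1))) • (fun m => uf N t 0 k m) := by
      funext m
      simp only [Pi.smul_apply, smul_eq_mul, uf]
      rw [if_neg (by omega), if_neg (by omega)]
      have h4 : ((m : ℂ) + 1) * A N 0 1 0 m = -(((N : ℂ) + 1) * A N 0 1 N m) := by
        have := R.r4 m
        show ((m : ℂ) + 1) * aa (sol N 0 1) 0 m = -(((N : ℂ) + 1) * aa (sol N 0 1) N m)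
        linear_combination this
      rw [heq m] at h4
      have h5 : A N 0 1 0 m = -(((N : ℂ) + 1) * (((m : ℂ) - N) * e m)) := by
        apply mul_left_cancel₀ (hm1 m)
        rw [h4]
        ring
      rw [h5]
      field_simp
    rw [h2]
    exact S.smul_mem _ h1
  have Q : ∀ k, 2 ≤ k → k ≤ N - 1 → (fun m : ℕ => ((m : ℂ) + 1) * e m * B N 1 t k m) ∈ S := by
    intro k hk hk'
    have h1 := mem_uf N t 1 k (by omega)
    have h2 : (fun m : ℕ => ((m : ℂ) + 1) * e m * B N 1 t k m) = (fun m => uf N t 1 k m) := by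
      funext m
      simp only [uf]
      rw [if_pos ⟨trivial, hk, hk'⟩, hdiv]
    rw [h2]
    exact h1
  have QN : (fun m : ℕ => ((m : ℂ) + 1) * e m * (B N 1 t N m - ((N : ℂ) - 1) * B N 1 t 1 m)) ∈
      S := by
    have h1 := mem_uf N t 1 N (by omega)
    have h2 : (fun m : ℕ => ((m : ℂ) + 1) * e m * (B N 1 t N m - ((N : ℂ) - 1) * B N 1 t 1 m)) =
        (fun m => uf N t 1 N m) := by
      funext m
      simp only [uf]
      rw [if_neg (by omega), if_pos ⟨trivial, trivial⟩, hdiv]
    rw [h2]
    exact h1
  -- the recurrence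
  have r1 : ∀ k m : ℕ, ((m : ℂ) - k) * B N 1 t k m =
      k * (B N 1 t (k + N - 1) m + t * B N 1 t (k + N) m) := by
    intro k m
    have := R'.r1 k m
    show ((m : ℂ) - k) * bb (sol N 1 t) k m =
      k * (bb (sol N 1 t) (k + N - 1) m + t * bb (sol N 1 t) (k + N) m)
    linear_combination this
  have E1 : ∀ k, 2 ≤ k → k ≤ N - 1 → (fun m : ℕ => e m * B N 1 t k m) ∈ S := by
    intro k hk hk'
    have h2 : (fun m : ℕ => e m * B N 1 t k m) = (1 / ((N : ℂ) + 1)) •
        ((fun m : ℕ => ((m : ℂ) + 1) * e m * B N 1 t k m) -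
          (fun m : ℕ => ((m : ℂ) - N) * e m * B N 1 t k m)) := by
      funext m
      simp only [Pi.smul_apply, Pi.sub_apply, smul_eq_mul]
      field_simp
      ring
    rw [h2]
    exact S.smul_mem _ (S.sub_mem (Q k hk hk') (P k (by omega)))
  have E2 : (fun m : ℕ => e m * B N 1 t (N + 1) m) ∈ S := by
    have h2 : (fun m : ℕ => e m * B N 1 t (N + 1) m) = (1 / t) •
        ((fun m : ℕ => ((m : ℂ) - N) * e m * B N 1 t 1 m) - (1 / ((N : ℂ) + 1)) •
          ((fun m : ℕ => ((m : ℂ) + 1) * e m * (B N 1 t N m - ((N : ℂ) - 1) * B N 1 t 1 m)) -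
            (fun m : ℕ => ((m : ℂ) - N) * e m * B N 1 t N m) +
            ((N : ℂ) - 1) • (fun m : ℕ => ((m : ℂ) - N) * e m * B N 1 t 1 m))) := by
      funext m
      simp only [Pi.smul_apply, Pi.sub_apply, Pi.add_apply, smul_eq_mul]
      have h3 := r1 1 m
      rw [show 1 + N - 1 = N by omega, show 1 + N = N + 1 by omega] at h3
      push_cast at h3
      field_simp
      linear_combination (-(e m) * ((N : ℂ) + 1)) * h3
    rw [h2]
    exact S.smul_mem _ (S.sub_mem (P 1 (by omega)) (S.smul_mem _
      (S.add_mem (S.sub_mem QN (P N (by omega))) (S.smul_mem _ (P 1 (by omega))))))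
  have step : ∀ k : ℕ, 1 ≤ k → (fun m : ℕ => ((m : ℂ) - k) * e m * B N 1 t k m) ∈ S →
      (fun m : ℕ => e m * B N 1 t (k + N - 1) m) ∈ S →
      (fun m : ℕ => e m * B N 1 t (k + N) m) ∈ S := by
    intro k hk h3 h4
    have hk0 : (k : ℂ) ≠ 0 := by exact_mod_cast (by omega : k ≠ 0)
    have h2 : (fun m : ℕ => e m * B N 1 t (k + N) m) = (1 / t) •
        ((1 / (k : ℂ)) • (fun m : ℕ => ((m : ℂ) - k) * e m * B N 1 t k m) -
          (fun m : ℕ => e m * B N 1 t (k + N - 1) m)) := by
      funext m
      simp only [Pi.smul_apply, Pi.sub_apply, smul_eq_mul]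
      have h5 := r1 k m
      field_simp
      linear_combination (-(e m)) * h5
    rw [h2]
    exact S.smul_mem _ (S.sub_mem (S.smul_mem _ h3) h4)
  have E3 : ∀ k, 1 ≤ k → k ≤ N - 1 → (fun m : ℕ => e m * B N 1 t (k + N) m) ∈ S := by
    intro k
    induction k with
    | zero => intro h; omega
    | succ k ih =>
      intro _ hk'
      rcases Nat.eq_zero_or_pos k with h0 | h0
      · subst h0
        rw [show 0 + 1 + N = N + 1 by omega]
        exact E2
      · apply step (k + 1) (by omega)
        · have h2 : (fun m : ℕ => ((m : ℂ) - ((k + 1 : ℕ) : ℂ)) * e m * B N 1 t (k + 1) m) =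
              (fun m : ℕ => ((m : ℂ) - N) * e m * B N 1 t (k + 1) m) +
                ((N : ℂ) - ((k + 1 : ℕ) : ℂ)) • (fun m : ℕ => e m * B N 1 t (k + 1) m) := by
            funext m
            simp only [Pi.smul_apply, Pi.add_apply, smul_eq_mul]
            ring
          rw [h2]
          exact S.add_mem (P (k + 1) (by omega)) (S.smul_mem _ (E1 (k + 1) (by omega) hk'))
        · rw [show k + 1 + N - 1 = k + N by omega]
          exact ih h0 (by omega)
  have E4 : (fun m : ℕ => e m * B N 1 t (N + N) m) ∈ S := by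
    apply step N (by omega) (P N (by omega))
    rw [show N + N - 1 = (N - 1) + N by omega]
    exact E3 (N - 1) (by omega) le_rfl
  have E5 : (fun m : ℕ => e m * B N 1 t (N + 1 + N) m) ∈ S := by
    apply step (N + 1) (by omega)
    · have h2 : (fun m : ℕ => ((m : ℂ) - ((N + 1 : ℕ) : ℂ)) * e m * B N 1 t (N + 1) m) =
          (fun m : ℕ => ((m : ℂ) - N) * e m * B N 1 t (N + 1) m) -
            (fun m : ℕ => e m * B N 1 t (N + 1) m) := by
        funext m
        simp only [Pi.sub_apply]
        push_cast
        ring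
      rw [h2]
      exact S.sub_mem (P (N + 1) le_rfl) E2
    · rw [show N + 1 + N - 1 = N + N by omega]
      exact E4
  rw [show N + 1 + N = 2 * N + 1 by omega] at E5
  have h2 : (fun m : ℕ => A N 0 1 N m * B N 1 t (2 * N + 1) m / (((m : ℂ) - N) * ((m : ℂ) + 1))) =
      (fun m : ℕ => e m * B N 1 t (2 * N + 1) m) := by
    funext m
    simp only [he]
    ring
  rw [h2]
  exact E5

theorem span_all (hs : S_SOL) (hr : S_REL) (hc : S_CHAIN) : S_SPAN := by
  intro N t hN6 ht
  have hN : 2 ≤ N := by omega
  have R := rel_sol hs hr N hN 0 1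
  have R' := rel_sol hs hr N hN 1 t
  refine ⟨?_, ?_⟩
  · rintro ⟨j, k⟩ hx
    simp only [If, J, mem_filter, mem_product, mem_range] at hx
    by_cases h1 : j = 1 ∧ 2 ≤ k ∧ k ≤ N - 1
    · have h2 : (fun m => wf N t j k m) = (fun m => uf N t j k m) := by
        funext m
        simp only [wf, uf]
        rw [if_pos h1, if_pos h1]
      show (fun m => wf N t j k m) ∈ _
      rw [h2]
      exact mem_uf N t j k (by omega)
    · by_cases h3 : j = 1 ∧ k = N
      · have h2 : (fun m => wf N t j k m) = (fun m : ℕ => A N 0 1 N m * B N 1 t (2 * N + 1) m /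
            (((m : ℂ) - N) * ((m : ℂ) + 1))) := by
          funext m
          simp only [wf]
          rw [if_neg h1, if_pos h3]
        show (fun m => wf N t j k m) ∈ _
        rw [h2]
        exact hc N t hN6 ht
      · have h2 : (fun m => wf N t j k m) = (fun m => uf N t j k m) := by
          funext m
          simp only [wf, uf]
          rw [if_neg h1, if_neg h1, if_neg h3, if_neg h3]
        show (fun m => wf N t j k m) ∈ _
        rw [h2]
        exact mem_uf N t j k (by omega)
  · rintro ⟨j, k⟩ hx
    simp only [Ig, J, mem_filter, mem_product, mem_range] at hx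
    show (fun m => wg N t j k m) ∈ _
    have hone : ∀ m : ℕ, m ≠ N - 1 → (m : ℂ) - N + 1 ≠ 0 := by
      intro m hm h
      apply hm
      have h2 : ((m + 1 : ℕ) : ℂ) = (N : ℂ) := by
        push_cast
        linear_combination h
      have h3 : m + 1 = N := by exact_mod_cast h2
      omega
    have hzero : (((N - 1 : ℕ) : ℂ) - N + 1) = 0 := by
      rw [Nat.cast_sub (by omega)]
      push_cast
      ring
    by_cases h1 : j = 1 ∧ k ≠ N - 1
    · obtain ⟨hj, hk⟩ := h1
      subst hj
      have h2 : (fun m => wg N t 1 k m) = (-(1 / t)) • (fun m => ug N t 1 k m) := by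
        funext m
        simp only [wg, ug, Pi.smul_apply, smul_eq_mul]
        rw [if_pos ⟨trivial, hk⟩]
        by_cases hm0 : m = 0
        · have h4 : B N 0 1 k m = 0 := R.r5 k m (by omega)
          rw [h4]
          simp
        · by_cases hm : m = N - 1
          · have h4 : B N 0 1 k m = 0 := by
              apply van' hs hr N hN
              intro l hl
              rcases l with _ | l
              · omega
              · have : l * N + N = (l + 1) * N := by ring
                omega
            rw [h4]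
            simp
          · have h5 := recB hs hr N hN t 0 m
            have h6 : B N 1 t 0 m = 0 := by
              have := R'.r7 m
              rw [if_neg hm0] at this
              exact this
            rw [h6, show 0 + 1 + N = N + 1 by omega, show 0 + 1 = 1 from rfl] at h5
            have h7 := hone m hm
            field_simp
            linear_combination (B N 0 1 k m) * h5
      rw [h2]
      exact Submodule.smul_mem _ _ (mem_ug N t 1 k (by omega))
    · by_cases h3 : j = N
      · have hk : k = 1 := by omega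
        subst h3
        subst hk
        have h2 : (fun m => wg j t j 1 m) = (-(1 / t)) • (fun m => ug j t j 1 m) := by
          funext m
          simp only [wg, ug, Pi.smul_apply, smul_eq_mul]
          rw [if_neg h1, if_pos trivial]
          by_cases hm : m = j - 1
          · have h4 : B j 0 1 1 m = 0 := by
              apply van' hs hr j hN
              intro l hl
              rcases l with _ | l
              · omega
              · have : l * j + j = (l + 1) * j := by ring
                omega
            rw [h4]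
            simp
          · have h5 := recB hs hr j hN t (j - 1) m
            rw [show j - 1 + 1 + j = 2 * j by omega, show j - 1 + 1 = j by omega,
              Nat.cast_sub (by omega : 1 ≤ j)] at h5
            have h7 := hone m hm
            field_simp
            push_cast at h5
            linear_combination (B j 0 1 1 m) * h5
        rw [h2]
        exact Submodule.smul_mem _ _ (mem_ug j t j 1 (by omega))
      · have h2 : (fun m => wg N t j k m) = (fun m => ug N t j k m) := by
          funext m
          simp only [wg, ug]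
          rw [if_neg h1, if_neg h3]
        rw [h2]
        exact mem_ug N t j k (by omega)

end Pool.Agent.Y420.LC
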