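import Pool.Agent.Y300.LC.Stm

/-! Job LC-ZAR for helper300: a nonzero polynomial in four variables does not vanish at all
`(p, q, conj p, conj q)`. -/

set_option autoImplicit false

open MvPolynomial
open scoped ComplexConjugate

namespace Pool.Agent.Y420.LC

open Pool.Agent.Y300.LC

theorem zar_all : S_ZAR := by
  intro D hD
  by_contra hcon
  push Not at hcon
  apply hD
  let g : Fin 4 → MvPolynomial (Fin 4) ℂ :=
    ![X 0 + C Complex.I * X 1, X 2 + C Complex.I * X 3, X 0 - C Complex.I * X 1,
      X 2 - C Complex.I * X 3]
  have hcomp : ∀ x : Fin 4 → ℂ, eval x (aeval g D) = eval (fun i => eval x (g i)) D := by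
    intro x
    have key : ∀ P : MvPolynomial (Fin 4) ℂ,
        eval x (aeval g P) = eval (fun i => eval x (g i)) P := by
      intro P
      induction P using MvPolynomial.induction_on with
      | C a => simp
      | add p q hp hq => simp only [map_add, hp, hq]
      | mul_X p i hp => simp only [map_mul, hp, aeval_X, eval_X]
    exact key D
  have hE : aeval g D = 0 := by
    refine MvPolynomial.funext_set (fun _ => Set.range (fun r : ℝ => (r : ℂ)))
      (fun _ => Set.infinite_range_of_injective Complex.ofReal_injective) (fun x hx => ?_)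
    choose r hr using fun i => hx i (Set.mem_univ i)
    rw [map_zero, hcomp]
    have h1 := hcon ((r 0 : ℂ) + Complex.I * r 1) ((r 2 : ℂ) + Complex.I * r 3)
    rw [← h1]
    congr 1
    congr 1
    funext i
    have hx' : ∀ i, x i = (r i : ℂ) := fun i => (hr i).symm
    fin_cases i <;> simp [g, hx', sub_eq_add_neg]
  refine MvPolynomial.funext fun y => ?_
  rw [map_zero]
  have h2 := hcomp ![(y 0 + y 2) / 2, (y 0 - y 2) / (2 * Complex.I), (y 1 + y 3) / 2,
    (y 1 - y 3) / (2 * Complex.I)]
  rw [hE, map_zero] at h2
  rw [h2]
  congr 1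
  congr 1
  have hI : Complex.I ≠ 0 := Complex.I_ne_zero
  funext i
  fin_cases i <;> simp [g] <;> field_simp <;> ring

end Pool.Agent.Y420.LC
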